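import Pool.Agent.R760.HB8

/-! Q1 of MP_1e5ad7_co for all radii `r ≥ 0.37`, and an explicit asymptotic density bound for every
radius `r > 0`. The conventions are those of the frozen statement `S07533`: a point of hyperbolic
3-space is given by its space coordinates in the hyperboloid model, and `vol` of a ball of radius
`ρ` is `π (sinh (2 ρ) - 2 ρ)`. -/

set_option autoImplicit false

namespace Pool.Agent.Results.MP_1e5ad7_co.LargeRadii

theorem result :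
    (∀ r : ℝ, 37 / 100 ≤ r → ∃ N : ℕ, 0 < N ∧
      ∀ (R : ℝ) (n : ℕ) (c : EuclideanSpace ℝ (Fin 3)) (x : Fin n → EuclideanSpace ℝ (Fin 3)),
        r ≤ R → N ≤ n →
        (∀ i j : Fin n, i ≠ j →
          Real.cosh (2 * r) ≤
            Real.sqrt (1 + ‖x i‖ ^ 2) * Real.sqrt (1 + ‖x j‖ ^ 2) - inner ℝ (x i) (x j)) →
        (∀ i : Fin n,
          Real.sqrt (1 + ‖c‖ ^ 2) * Real.sqrt (1 + ‖x i‖ ^ 2) - inner ℝ c (x i)
            ≤ Real.cosh (R - r)) →
        (n : ℝ) * (Real.sinh (2 * r) - 2 * r) <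
          Real.pi / Real.sqrt 18 * (Real.sinh (2 * R) - 2 * R)) ∧
    (∀ r T δ : ℝ, 0 < r → 0 < T → T < 2 * r →
      Real.exp (-T) ^ 2 + 2 * Real.exp (-T) *
        (Real.cosh r * (1 - Real.exp (-T)) - Real.exp r * (1 - Real.exp (-T) ^ 2) / 4 -
          T * Real.exp (-r) / 2) / (Real.cosh r - Real.cosh (r - T)) < δ →
      ∃ N : ℕ, 0 < N ∧
      ∀ (R : ℝ) (n : ℕ) (c : EuclideanSpace ℝ (Fin 3)) (x : Fin n → EuclideanSpace ℝ (Fin 3)),
        r ≤ R → N ≤ n →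
        (∀ i j : Fin n, i ≠ j →
          Real.cosh (2 * r) ≤
            Real.sqrt (1 + ‖x i‖ ^ 2) * Real.sqrt (1 + ‖x j‖ ^ 2) - inner ℝ (x i) (x j)) →
        (∀ i : Fin n,
          Real.sqrt (1 + ‖c‖ ^ 2) * Real.sqrt (1 + ‖x i‖ ^ 2) - inner ℝ c (x i)
            ≤ Real.cosh (R - r)) →
        (n : ℝ) * (Real.sinh (2 * r) - 2 * r) < δ * (Real.sinh (2 * R) - 2 * R)) :=
  ⟨fun _ hr => Pool.Agent.R760.HB.large_radii hr,
    fun _ _ _ hr hT hT2 hδ => Pool.Agent.R760.HB.densityBelow_of_beta hr hT hT2 hδ⟩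

end Pool.Agent.Results.MP_1e5ad7_co.LargeRadii
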